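import Pool.Agent.Lib.MP_c7af3c_ag.SHARP.H26.Size
import Pool.Agent.Lib.MP_c7af3c_ag.METC.Base
import Pool.Agent.Lib.MP_c7af3c_ag.YY.H46.Sch

/-!
# MP_c7af3c_ag, project FANO: definitions
Height inequality for linear subspaces (planes of vector dimension `r`) of very general complete
intersections. See Paper.md.
-/

set_option autoImplicit false

namespace Pool.Agent.Fano

open MvPolynomial WithZero Pool.Agent.Gen Pool.Agent.Sharp

/-- monomials of degree `d` in `r` variables -/
abbrev Mon (r d : ℕ) : Type := {a : Fin r →₀ ℕ // a.degree = d}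

theorem mem_antidiag {r d : ℕ} (a : Fin r →₀ ℕ) :
    a ∈ Finset.finsuppAntidiag (Finset.univ : Finset (Fin r)) d ↔ a.degree = d := by
  rw [Finset.mem_finsuppAntidiag, Finsupp.degree_eq_sum]
  constructor
  · exact fun h => h.1
  · exact fun h => ⟨h, Finset.subset_univ _⟩

noncomputable instance fintypeMon (r d : ℕ) : Fintype (Mon r d) :=
  Fintype.ofEquiv (Finset.finsuppAntidiag (Finset.univ : Finset (Fin r)) d)
    (Equiv.subtypeEquivRight fun a => mem_antidiag a)

/-! ### Substitutions -/

section subs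

variable {R : Type} [CommRing R] {r : ℕ}

/-- the substitution `X_i ↦ ∑_j γ_ij X_j` -/
noncomputable def subs (γ : Matrix (Fin r) (Fin r) R) :
    MvPolynomial (Fin r) R →ₐ[R] MvPolynomial (Fin r) R :=
  aeval fun i => ∑ j, C (γ i j) * X j

/-- the matrix of the substitution on the forms of degree `d` -/
noncomputable def symS (γ : Matrix (Fin r) (Fin r) R) (d : ℕ) : Matrix (Mon r d) (Mon r d) R :=
  Matrix.of fun a b => coeff b.1 (subs γ (monomial a.1 1))

end subs

/-! ### Planes -/

section planes

variable {R : Type} [CommRing R] {n r : ℕ} (x : Fin r → Fin (n + 1) → R)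

/-- restriction of a form to the plane spanned by the `x a` -/
noncomputable def restP : MvPolynomial (Fin (n + 1)) R →ₐ[R] MvPolynomial (Fin r) R :=
  aeval fun p => ∑ a, C (x a p) * X a

/-- the Plücker coordinates of the plane, for all `r`-tuples of coordinates -/
def pl (J : Fin r → Fin (n + 1)) : R := Matrix.det (Matrix.of fun a b => x a (J b))

/-- the linear forms with `r + 1` terms which vanish on the plane -/
noncomputable def hJ (J : Fin r → Fin (n + 1)) (k : Fin (n + 1)) : MvPolynomial (Fin (n + 1)) R :=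
  C (pl x J) * X k - ∑ b, C (pl x (Function.update J b k)) * X (J b)

end planes

section heights

variable {L : Type} [Field L] (S : PlaceSys L) {n r : ℕ} (x : Fin r → Fin (n + 1) → L)

/-- the size of the Plücker coordinates at a place -/
noncomputable def mxF (p : S.V) : ℤᵐ⁰ :=
  (Finset.univ : Finset (Fin r → Fin (n + 1))).sup' ⟨fun _ => 0, Finset.mem_univ _⟩
    fun J => S.v p (pl x J)

/-- the height of the plane -/
noncomputable def hF : ℤ := ∑ᶠ p, (S.w p : ℤ) * log (mxF S x p)

end heights

/-! ### Columns -/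

section cols

variable {L : Type} [Field L] {n c r : ℕ} {d : Fin c → ℕ} (D : DSys L n c d)
  (x : Fin r → Fin (n + 1) → L)

/-- tuples of forms of degrees `d m` -/
def Hom (d : Fin c → ℕ) (G : Fin c → MvPolynomial (Fin (n + 1)) L) : Prop :=
  ∀ m, (G m).IsHomogeneous (d m)

/-- the tuple vanishes on the plane -/
def OnP (G : Fin c → MvPolynomial (Fin (n + 1)) L) : Prop := ∀ m, restP x (G m) = 0

/-- the `r * r` columns of the plane -/
def PP (ab : Fin r × Fin r) : Fin r × Fin (n + 1) → L :=
  fun s => if s.1 = ab.1 then x ab.2 s.2 else 0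

/-- the columns `(V_{x a}(G))_a` -/
noncomputable def VV (G : Fin c → MvPolynomial (Fin (n + 1)) L) : Fin r × Fin (n + 1) → L :=
  fun s => VT D (x s.1) G s.2

/-- the columns `(W_{x a}(p,q))_a` -/
noncomputable def WW (p q : Fin (n + 1)) : Fin r × Fin (n + 1) → L :=
  fun s => WT D (x s.1) p q s.2

/-- the variation space of the plane -/
noncomputable def SL : Submodule L (Fin r × Fin (n + 1) → L) :=
  Submodule.span L (Set.range (PP x) ∪ {u | ∃ p q, u = WW D x p q} ∪
    {u | ∃ G, Hom d G ∧ OnP x G ∧ u = VV D x G})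

/-- the index set of the monomials in `r` variables of the degrees `d m` -/
abbrev Hix (r : ℕ) {c : ℕ} (d : Fin c → ℕ) : Type := Σ m : Fin c, Mon r (d m)

/-- the monomial in the `X_{J i}` in the component `b.1` -/
noncomputable def mon (d : Fin c → ℕ) (J : Fin r → Fin (n + 1)) (b : Hix r d) :
    Fin c → MvPolynomial (Fin (n + 1)) L :=
  fun m => if m = b.1 then ∏ i, X (J i) ^ (b.2.1 i) else 0

/-- the tuple with one component -/
noncomputable def one1 (m : Fin c) (G : MvPolynomial (Fin (n + 1)) L) :
    Fin c → MvPolynomial (Fin (n + 1)) L :=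
  fun m' => if m' = m then G else 0

end cols

/-- the other columns: `W(p,q)` or `V(h X^I)` with a form `h = hJ` in the component `m` -/
inductive LC (n c r : ℕ)
  | W (p q : Fin (n + 1)) : LC n c r
  | H (m : Fin c) (J : Fin r → Fin (n + 1)) (k : Fin (n + 1)) (I : Fin (n + 1) →₀ ℕ) : LC n c r

/-- the monomial has degree `d m - 1` -/
def LC.Ok {n c r : ℕ} (d : Fin c → ℕ) : LC n c r → Prop
  | LC.W _ _ => True
  | LC.H m _ _ I => I.degree + 1 = d m

/-- the weight of the column: `1` for the columns `H` -/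
def LC.wt {n c r : ℕ} : LC n c r → ℕ
  | LC.W _ _ => 0
  | LC.H _ _ _ _ => 1

/-- the column -/
noncomputable def LC.val {L : Type} [Field L] {n c r : ℕ} {d : Fin c → ℕ} (D : DSys L n c d)
    (x : Fin r → Fin (n + 1) → L) : LC n c r → (Fin r × Fin (n + 1) → L)
  | LC.W p q => WW D x p q
  | LC.H m J k I => VV D x (one1 m (hJ x J k * monomial I 1))

/-- all the columns: `PP`, the chosen `LC`, and the monomials in the `X_{J i}` -/
noncomputable def colF {L : Type} [Field L] {n c r : ℕ} {d : Fin c → ℕ} (D : DSys L n c d)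
    (x : Fin r → Fin (n + 1) → L) {q : ℕ} (C : Fin q → LC n c r) (J : Fin r → Fin (n + 1)) :
    ((Fin r × Fin r) ⊕ Fin q) ⊕ Hix r d → (Fin r × Fin (n + 1) → L) :=
  Sum.elim (Sum.elim (PP x) fun s => (C s).val D x) fun b => VV D x (mon d J b)

/-- the exponent `N = ∑ C(d_m + r - 1, r)` -/
def NN (r : ℕ) {c : ℕ} (d : Fin c → ℕ) : ℕ := ∑ m, (d m + r - 1).choose r

/-- the dimension of the space of the restrictions, `∑ C(d_m + r - 1, r - 1)` -/
noncomputable def dimH (r : ℕ) {c : ℕ} (d : Fin c → ℕ) : ℕ := ∑ m, Fintype.card (Mon r (d m))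

end Pool.Agent.Fano
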