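import Pool.Agent.Lib.MP_c7af3c_ag.FANO.Base

/-!
# MP_c7af3c_ag, project FANO: module statements
-/

set_option autoImplicit false

namespace Pool.Agent.Fano

open MvPolynomial WithZero Pool.Agent.Gen Pool.Agent.Sharp

/-- Module SYMR: the determinant of the symmetric power of a matrix. -/
def SymrStatement : Prop := ∀ (L : Type) [Field L] [CharZero L] (r d : ℕ)
  (γ : Matrix (Fin r) (Fin r) L), (symS γ d).det = γ.det ^ ((d + r - 1).choose r)

/-- Module REST: restriction to a plane. -/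
def RestStatement : Prop := ∀ (L : Type) [Field L] [CharZero L] (n r : ℕ)
  (x : Fin r → Fin (n + 1) → L),
  (∀ (F : MvPolynomial (Fin (n + 1)) L) (t : Fin r → L),
    eval t (restP x F) = eval (fun p => ∑ a, t a * x a p) F) ∧
  (∀ (F : MvPolynomial (Fin (n + 1)) L) (b : Fin r),
    pderiv b (restP x F) = ∑ p, restP x (pderiv p F) * C (x b p)) ∧
  (∀ (F : MvPolynomial (Fin (n + 1)) L) (e : ℕ), F.IsHomogeneous e →
    (restP x F).IsHomogeneous e) ∧
  (∀ (J : Fin r → Fin (n + 1)) (a : Fin r →₀ ℕ),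
    restP x (∏ i, X (J i) ^ a i) = subs (Matrix.of fun i b => x b (J i)) (monomial a 1)) ∧
  (∀ (J : Fin r → Fin (n + 1)) (k : Fin (n + 1)), restP x (hJ x J k) = 0) ∧
  (LinearIndependent L x ↔ ∃ J, pl x J ≠ 0)

/-- Module PHIR: the variation space of a plane inside the complete intersection. -/
def PhirStatement : Prop := ∀ (L : Type) [Field L] [CharZero L] (n c r : ℕ) (d : Fin c → ℕ)
  (D : DSys L n c d) (x : Fin r → Fin (n + 1) → L), LinearIndependent L x → OnP x D.F →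
  Module.finrank L (SL D x) + dimH r d ≤ r * (n + 1)

/-- Module LIDLR: the forms vanishing on a plane. -/
def LidlrStatement : Prop := ∀ (L : Type) [Field L] [CharZero L] (n r e : ℕ)
  (x : Fin r → Fin (n + 1) → L), LinearIndependent L x →
  ∀ G : MvPolynomial (Fin (n + 1)) L, G.IsHomogeneous e → restP x G = 0 →
    G ∈ Submodule.span L {P | ∃ J k, ∃ I : Fin (n + 1) →₀ ℕ, I.degree + 1 = e ∧
      P = hJ x J k * monomial I 1}

/-- Module LSURR: the columns span. -/
def LsurrStatement : Prop := ∀ (L : Type) [Field L] [CharZero L] (n c r : ℕ) (d : Fin c → ℕ)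
  (D : DSys L n c d) (x : Fin r → Fin (n + 1) → L), LinearIndependent L x →
  ∀ J, pl x J ≠ 0 →
    SL D x ⊔ Submodule.span L (Set.range fun b => VV D x (mon d J b)) = ⊤

/-- Module BASR: a choice of columns with nonzero determinant (uses PHIR, LIDLR, LSURR). -/
def BasrStatement : Prop := ∀ (L : Type) [Field L] [CharZero L] (n c r : ℕ) (d : Fin c → ℕ)
  (D : DSys L n c d) (x : Fin r → Fin (n + 1) → L), LinearIndependent L x → OnP x D.F →
  ∀ J0, pl x J0 ≠ 0 → ∃ (q : ℕ) (C : Fin q → LC n c r),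
    r * r + q + dimH r d = r * (n + 1) ∧ (∀ s, (C s).Ok d) ∧
    (∀ G, Hom d G → OnP x G → VV D x G ∈ Submodule.span L
      (Set.range (PP x) ∪ Set.range fun s => (C s).val D x)) ∧
    LinearIndependent L (colF D x C J0)

/-- Module CMPR: change of the tuple of coordinates (uses SYMR, REST). -/
def CmprStatement : Prop := ∀ (L : Type) [Field L] [CharZero L] (n c r : ℕ) (d : Fin c → ℕ)
  (D : DSys L n c d) (x : Fin r → Fin (n + 1) → L) (J0 : Fin r → Fin (n + 1)), pl x J0 ≠ 0 →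
  ∀ (q : ℕ) (C : Fin q → LC n c r),
  (∀ G, Hom d G → OnP x G → VV D x G ∈ Submodule.span L
    (Set.range (PP x) ∪ Set.range fun s => (C s).val D x)) →
  ∀ (e : ((Fin r × Fin r) ⊕ Fin q) ⊕ Hix r d ≃ Fin r × Fin (n + 1)) (J : Fin r → Fin (n + 1)),
    Matrix.det (Matrix.of fun k k' => colF D x C J k' (e k)) =
      (pl x J / pl x J0) ^ NN r d * Matrix.det (Matrix.of fun k k' => colF D x C J0 k' (e k))

/-- Module LOCR: the size of the determinant at a place. -/
def LocrStatement : Prop := ∀ (L : Type) [Field L] [CharZero L] (n c r : ℕ) (d : Fin c → ℕ)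
  (D : DSys L n c d) (x : Fin r → Fin (n + 1) → L) (J : Fin r → Fin (n + 1)), pl x J ≠ 0 →
  ∀ (q : ℕ) (C : Fin q → LC n c r), (∀ s, (C s).Ok d) →
  ∀ (e : ((Fin r × Fin r) ⊕ Fin q) ⊕ Hix r d ≃ Fin r × Fin (n + 1))
    (v : Valuation L ℤᵐ⁰) (B : ℤᵐ⁰), 1 ≤ B →
  (∀ m I, I.degree = d m → ∀ f, v f ≤ 1 → v (D.del m I f) ≤ B) →
  (∀ m I, v (coeff I (D.F m)) ≤ B) → (∀ J', v (pl x J') ≤ v (pl x J)) →
    v (Matrix.det (Matrix.of fun k k' => colF D x C J k' (e k))) ≤
      B ^ (2 * (r * (n + 1))) * v (pl x J) ^ (n + 1 + ∑ s, (C s).wt)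

/-- Module HBFR: the height inequality for planes (uses BASR, CMPR, LOCR). -/
def HbfrStatement : Prop := ∀ (L : Type) [Field L] [CharZero L] (n c r : ℕ) (d : Fin c → ℕ)
  (D : DSys L n c d) (x : Fin r → Fin (n + 1) → L), LinearIndependent L x → OnP x D.F →
  r * (n + 1) + n + 2 ≤ NN r d + r * r + dimH r d →
  ∀ (S : PlaceSys L), S.IsProd → ∀ B : S.V → ℕ, BD S D B →
    hF S x ≤ (2 * (r * (n + 1)) : ℕ) * tot S B

/-- Module HTFR: the height bound for the entries of normalised frames. -/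
def HtF (n c r : ℕ) (d : Fin c → ℕ) (J0 : Fin r → Fin (n + 1)) : Prop :=
  ∃ A : ℕ, ∀ (L : Type) [Field L] [CharZero L] (D : DSys L n c d) (x : Fin r → Fin (n + 1) → L),
    (∀ a b, x a (J0 b) = if a = b then 1 else 0) → OnP x D.F →
    ∀ S : PlaceSys L, S.IsProd → ∀ B : S.V → ℕ, BD S D B →
      ∀ a k, S.ht (n := 1) ![1, x a k] ≤ A * tot S B

/-- Module HTFR (uses HBFR). -/
def HtfrStatement : Prop := ∀ (n c r : ℕ) (d : Fin c → ℕ),
  r * (n + 1) + n + 2 ≤ NN r d + r * r + dimH r d → ∀ J0 : Fin r → Fin (n + 1), HtF n c r d J0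

end Pool.Agent.Fano
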